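import Pool.Agent.W_MP_f61043_h40.RelF

/-!
# MP_f61043_lc : `K` is the least singular cardinal of uncountable cofinality in the model
-/

set_option autoImplicit false

universe u

open Cardinal Set HESR IM.BSet SQR
open IM (BSet)

namespace F61M

open BVM F61

section
variable {K L D : Type u} [LinearOrder K] [LinearOrder L] [WellFoundedLT K] [WellFoundedLT L]
  [CompleteBooleanAlgebra D]

/-- case 1: an image of a smaller initial segment is not a cardinal -/
theorem not_card_i {i j : K} (hj : j < i) {e : K → K} (he : ∀ x < i, ∃ y < j, e y = x)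
    {lam : D → Prop} (hl : IsUF lam) : ¬ IsCard (E hl) (val hl (chk i : BSet D)) := by
  classical
  intro hc
  have hcv : Pool.Agent.W_61ad90.CovN (D := D) (A := Iio j)
      (fun a y => if e a.1 = y then (⊤ : D) else ⊥) i := by
    refine ⟨fun a y z hyz => ?_, fun y hy => ?_⟩
    · change (if e a.1 = y then (⊤ : D) else ⊥) ⊓ (if e a.1 = z then (⊤ : D) else ⊥) = ⊥
      by_cases h1 : e a.1 = y
      · rw [if_neg (fun h2 : e a.1 = z => hyz (h1.symm.trans h2)), inf_bot_eq]
      · rw [if_neg h1, bot_inf_eq]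
    · obtain ⟨a, ha, hay⟩ := he y hy
      rw [eq_top_iff]
      refine le_iSup_of_le (⟨a, ha⟩ : Iio j) ?_
      change ⊤ ≤ (if e a = y then (⊤ : D) else ⊥)
      rw [if_pos hay]
  have h := Pool.Agent.W_61ad90.cov_of_covN (A := Iio j) (j := fun a => (chk a.1 : BSet D))
    (fun a a' h => beq_chk_ne fun h' => h (Subtype.ext h')) (i := i) ⟨_, hcv⟩ hl
  rw [← chk_eq j] at h
  exact hc.not_cov (E_chk_of hj) h

/-- case 2: a countable cofinal set -/
theorem not_unc_i {i : K} {f : ℕ → K} (hf : ∀ n, f n < i) (hcof : ∀ x < i, ∃ n, x ≤ f n)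
    {lam : D → Prop} (hl : IsUF lam) : ¬ PPR.IsSingUnc (E hl) (val hl (chk i : BSet D)) := by
  rintro ⟨_, _, _, hunc⟩
  let F : BSet D := fnB (ι := ULift.{u} ℕ) (fun n => natB n.down) (fun n => chk (f n.down))
  have hfun : IsFun (E hl) (val hl F) (val hl omB) := by
    refine isFun_fnB fun a b => ?_
    by_cases h : a = b
    · subst h
      rw [beq_refl (chk (f a.down))]
      exact le_top
    · rw [beq_natB_ne fun h' => h (ULift.ext _ _ h')]
      exact bot_le
  have hmaps : Maps (E hl) (val hl F) (val hl omB) (val hl (chk i)) := by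
    refine ⟨hfun, fun x y hxy => ?_⟩
    exact forall_app_relB (P := fun lam hl x y => E hl y (val hl (chk i)))
      (TD.mem (Tm.var 1) (Tm.const _)) (a := ⊤) (fun n lam hl _ _ => E_chk_of (hf _)) hl.top x y hxy
  obtain ⟨x, hx, hb⟩ := hunc _ _ isOmega_omB hmaps
  have key : ∀ x, E hl x (val hl (chk i)) → ¬ ∀ n y, App (E hl) (val hl F) n y → E hl y x := by
    refine forall_chk (P := fun lam hl x => ¬ ∀ n y, App (E hl) (val hl F) n y → E hl y x) ?_
      (a := ⊤) ?_ hl.top
    · refine TD.not ?_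
      refine TD.all (P := fun lam hl n v => ∀ y, App (E hl) (val hl F) n y → E hl y (v 0)) ?_
      exact TD.all (P := fun lam hl y v => App (E hl) (val hl F) (v 0) y → E hl y (v 1))
        (TD.imp (TD.app (Tm.const _) (Tm.var 1) (Tm.var 0)) (TD.mem (Tm.var 0) (Tm.var 2)))
    · intro x hx lam hl _ hall
      obtain ⟨n, hn⟩ := hcof x hx
      have h1 := hall _ _ (app_fnB_of (f := fun n : ULift.{u} ℕ => (natB n.down : BSet D))
        (g := fun n : ULift.{u} ℕ => chk (f n.down)) ⟨n⟩)
      exact absurd (E_chk.1 h1) (not_lt.2 hn)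
  exact key x hx hb

/-- case 3: regular cardinals -/
theorem not_sing_i {i : K} (h : ∀ j < i, ∀ F : K → K → D, (∀ a x y, x ≠ y → F a x ⊓ F a y = ⊥) →
      ∀ c : D, c ≠ ⊥ → ∃ (b : D) (z : K), b ≠ ⊥ ∧ b ≤ c ∧ z < i ∧
        ∀ a < j, ∀ y, z ≤ y → y < i → b ⊓ F a y = ⊥)
    {lam : D → Prop} (hl : IsUF lam) : ¬ PPR.IsSingUnc (E hl) (val hl (chk i : BSet D)) := by
  rintro ⟨_, _, ⟨j, f, hj, hf⟩, _⟩
  have key : ∀ j, E hl j (val hl (chk i)) → ¬ ∃ f, Maps (E hl) f j (val hl (chk i)) ∧
      ∀ x, E hl x (val hl (chk i)) → ∃ a y, App (E hl) f a y ∧ ¬ E hl y x := by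
    have hT : TD (k := 2) (D := D) fun lam hl v => Maps (E hl) (v 0) (v 1) (val hl (chk i)) ∧
        ∀ x, E hl x (val hl (chk i)) → ∃ a y, App (E hl) (v 0) a y ∧ ¬ E hl y x := by
      refine TD.and (TD.maps (Tm.var 0) (Tm.var 1) (Tm.const _)) ?_
      refine TD.all (P := fun lam hl x v => E hl x (val hl (chk i)) →
        ∃ a y, App (E hl) (v 0) a y ∧ ¬ E hl y x) ?_
      refine TD.imp (TD.mem (Tm.var 0) (Tm.const _)) ?_
      refine TD.ex (P := fun lam hl a v => ∃ y, App (E hl) (v 1) a y ∧ ¬ E hl y (v 0)) ?_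
      exact TD.ex (P := fun lam hl y v => App (E hl) (v 2) (v 0) y ∧ ¬ E hl y (v 1))
        (TD.and (TD.app (Tm.var 3) (Tm.var 1) (Tm.var 0)) (TD.not (TD.mem (Tm.var 0) (Tm.var 2))))
    refine forall_chk (P := fun lam hl j => ¬ ∃ f, Maps (E hl) f j (val hl (chk i)) ∧
      ∀ x, E hl x (val hl (chk i)) → ∃ a y, App (E hl) f a y ∧ ¬ E hl y x) ?_ (a := ⊤) ?_ hl.top
    · refine TD.not ?_
      refine TD.ex (P := fun lam hl f v => Maps (E hl) f (v 0) (val hl (chk i)) ∧
        ∀ x, E hl x (val hl (chk i)) → ∃ a y, App (E hl) f a y ∧ ¬ E hl y x) ?_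
      exact hT
    · rintro j hj lam hl _ ⟨f, hf⟩
      have hT1 : TD1 (D := D) fun lam hl f => Maps (E hl) f (val hl (chk j)) (val hl (chk i)) ∧
          ∀ x, E hl x (val hl (chk i)) → ∃ a y, App (E hl) f a y ∧ ¬ E hl y x := by
        refine TD.and (TD.maps (Tm.var 0) (Tm.const _) (Tm.const _)) ?_
        refine TD.all (P := fun lam hl x v => E hl x (val hl (chk i)) →
          ∃ a y, App (E hl) (v 0) a y ∧ ¬ E hl y x) ?_
        refine TD.imp (TD.mem (Tm.var 0) (Tm.const _)) ?_
        refine TD.ex (P := fun lam hl a v => ∃ y, App (E hl) (v 1) a y ∧ ¬ E hl y (v 0)) ?_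
        exact TD.ex (P := fun lam hl y v => App (E hl) (v 2) (v 0) y ∧ ¬ E hl y (v 1))
          (TD.and (TD.app (Tm.var 3) (Tm.var 1) (Tm.var 0)) (TD.not (TD.mem (Tm.var 0) (Tm.var 2))))
      obtain ⟨F, c, _, hc0, hF⟩ := exists_forced hT1 hf
      obtain ⟨b, z, hb0, hbc, hz, hb⟩ := h j hj (fun a x => c ⊓ apw F (chk a) (chk x))
        (fun a x y hxy => apw_sv (fun lam hl hlam => (hF lam hl hlam).1.1) hxy) c hc0
      obtain ⟨lam, hl, hlam⟩ := exists_isUF hb0
      obtain ⟨h1, h2⟩ := hF lam hl (hl.mono hbc hlam)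
      obtain ⟨a, y, hay, hyz⟩ := h2 _ (E_chk_of hz)
      have hy := h1.2 _ _ hay
      have ha := h1.1.dom (zfc hl) hay
      -- the values are elements of `z`
      have key : ∀ a, E hl a (val hl (chk j)) → ∀ y, E hl y (val hl (chk i)) →
          App (E hl) (val hl F) a y → E hl y (val hl (chk z)) := by
        refine forall_chk (P := fun lam hl a => ∀ y, E hl y (val hl (chk i)) →
          App (E hl) (val hl F) a y → E hl y (val hl (chk z))) ?_ (a := b) ?_ hlam
        · refine TD.all (P := fun lam hl y v => E hl y (val hl (chk i)) →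
            App (E hl) (val hl F) (v 0) y → E hl y (val hl (chk z))) ?_
          exact TD.imp (TD.mem (Tm.var 0) (Tm.const _)) (TD.imp
            (TD.app (Tm.const _) (Tm.var 1) (Tm.var 0)) (TD.mem (Tm.var 0) (Tm.const _)))
        · intro a ha lam hl hlam
          refine forall_chk (P := fun lam hl y => App (E hl) (val hl F) (val hl (chk a)) y →
            E hl y (val hl (chk z))) ?_ (a := b) ?_ hlam
          · exact TD.imp (TD.app (Tm.const _) (Tm.const _) (Tm.var 0)) (TD.mem (Tm.var 0) (Tm.const _))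
          · intro y hy lam hl hlam hay
            rcases lt_or_ge y z with h3 | h3
            · exact E_chk_of h3
            · have h4 := hb a ha y h3 hy
              exact (hl.bot (h4 ▸ hl.inf hlam (hl.inf (hl.mono hbc hlam) (apw_iff.1 hay)))).elim
      exact hyz (key a ha y hy hay)
  exact key j hj ⟨f, hf⟩

omit [WellFoundedLT L] in
/-- `K` is the least singular cardinal of uncountable cofinality -/
theorem isLeastSing_K (h : CoreF2 K L D) {lam : D → Prop} (hl : IsUF lam) :
    PPR.IsLeastSing (E hl) (val hl (chkT K : BSet D)) := by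
  refine ⟨isSingUnc_K h.toCoreF hl, ?_⟩
  refine forall_chkT (P := fun lam hl m => ¬ PPR.IsSingUnc (E hl) m)
    (TD.not (TD.fo1 (R := fun _ E a => PPR.IsSingUnc E a) (PPR.IsSingUnc.fo 0) (Tm.var 0)))
    (a := ⊤) ?_ hl.top
  intro i lam hl _
  rcases h.least i with ⟨j, hj, e, he⟩ | ⟨f, hf, hcof⟩ | h1
  · exact fun hs => not_card_i hj he hl hs.1
  · exact not_unc_i hf hcof hl
  · exact not_sing_i h1 hl

/-- the polarized relation fails at `K` in the quotients -/
theorem polFails_X (h : CoreF2 K L D) {lam : D → Prop} (hl : IsUF lam) : PPR.PolFails (E hl) :=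
  ⟨_, _, isLeastSing_K h hl, isSC_L h.toCoreF hl, not_arrow h.toCoreF hl⟩

end

end F61M
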