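import Pool.Agent.W_315f31_h40.Final0
import Pool.Agent.W_MP_f61043_h40.LeastF

/-!
# MP_f61043_lc : the countable well-founded model, from the properties `CoreF2` of the forcing
-/

set_option autoImplicit false

universe u

open Cardinal Set HESR IM.BSet SQR
open IM (BSet)

namespace F61M

open BVM F61

/-- The properties of the forcing give a countable well-founded model of ZFC and GCH in which the
polarized relation fails at the least singular cardinal of uncountable cofinality. -/
theorem model_of_coreF {K L D : Type u} [LinearOrder K] [LinearOrder L] [WellFoundedLT K]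
    [WellFoundedLT L] [CompleteBooleanAlgebra D] [Nontrivial D] (h : CoreF2 K L D) :
    ∃ (M : Type (u + 1)) (E : M → M → Prop), Countable M ∧ WellFounded E ∧ HESR.IsZFC E ∧
      SQR.GCH E ∧ PPR.PolFails E := by
  obtain ⟨N, hNc, _, hW, hN⟩ := exists_names_closed (D := D) (fun x _ => x) omB
  obtain ⟨lam, hl, _, hwf⟩ := exists_wf (D := D) (a := ⊤) top_ne_bot N hNc
  have hM : Countable (Mdl hl N) := by
    have h1 : Countable N := hNc.to_subtype
    have h2 : Function.Surjective fun z : N => (⟨val hl z.1, z.1, z.2, rfl⟩ : Mdl hl N) := by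
      rintro ⟨x, z, hz, rfl⟩
      exact ⟨⟨z, hz⟩, rfl⟩
    exact h2.countable
  refine ⟨Mdl hl N, EM hl N, hM, hwf, zfc_mdl hl N hN, ?_, ?_⟩
  · exact (fo_transfer hN (SQR.GCH.fo (k := 0)) Fin.elim0).2 (Pool.Agent.W_61ad90.gch_X h.gch hl)
  · exact (fo_transfer hN (PPR.PolFails.fo (k := 0)) Fin.elim0).2 (polFails_X h hl)

end F61M
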