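import Pool.Agent.W_61ad90_h32.Stmt61

set_option autoImplicit false

/-!
# MP_f61043_lc : the notions of the statement

Singular cardinals of uncountable cofinality and the polarized partition relation in a structure `(T, E)`.
-/

namespace PPR
open HESR SQR
universe u

section defs
variable {T : Type u} (E : T → T → Prop)

/-- `k` is a singular cardinal of uncountable cofinality: an uncountable cardinal, some function from an
element of `k` to `k` is cofinal in `k`, and every function from `ω` to `k` is bounded in `k` -/
def IsSingUnc (k : T) : Prop :=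
  IsCard E k ∧ (∃ w, IsOmega E w ∧ E w k) ∧
    (∃ i f, E i k ∧ Maps E f i k ∧ ∀ x, E x k → ∃ a y, App E f a y ∧ ¬ E y x) ∧
    ∀ w f, IsOmega E w → Maps E f w k → ∃ x, E x k ∧ ∀ n y, App E f n y → E y x

/-- the relation `(k ; l) → (k k ; k k)^{1,1}` : for every partition of `k × l` into the set of the pairs
in `D` and the set of the pairs not in `D` there are subsets `A` of `k` and `B` of `l` of the cardinality
of `k` such that `A × B` is contained in one of the two parts -/
def Arrow (k l : T) : Prop :=
  ∀ D, ∃ A B, Sub E A k ∧ Eqp E k A ∧ Sub E B l ∧ Eqp E k B ∧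
    ((∀ a b, E a A → E b B → App E D a b) ∨ ∀ a b, E a A → E b B → ¬ App E D a b)

/-- `k` is `ℵ_(ω₁)` : the least singular cardinal of uncountable cofinality -/
def IsLeastSing (k : T) : Prop := IsSingUnc E k ∧ ∀ m, E m k → ¬ IsSingUnc E m

/-- the polarized relation fails at the least singular cardinal `k` of uncountable cofinality: for the
successor cardinal `l` of `k`, the relation `(k ; l) → (k k ; k k)^{1,1}` is false -/
def PolFails : Prop := ∃ k l, IsLeastSing E k ∧ IsSC E k l ∧ ¬ Arrow E k l

end defs

/-! ### The notions are uniformly first-order -/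

section fo
variable {k : ℕ}

theorem IsSingUnc.fo (a : Fin k) : FO.{u} (fun _ E v => IsSingUnc E (v a)) := by
  unfold IsSingUnc; (repeat' (first | exact IsCard.fo _ | exact IsOmega.fo _ | exact Maps.fo _ _ _ | exact App.fo _ _ _ | exact FO.mem _ _ | apply FO.not | apply FO.and | apply FO.imp | apply FO.ex | apply FO.all))

theorem Arrow.fo (a b : Fin k) : FO.{u} (fun _ E v => Arrow E (v a) (v b)) := by
  unfold Arrow; (repeat' (first | exact Eqp.fo _ _ | exact Sub.fo _ _ | exact App.fo _ _ _ | exact FO.mem _ _ | apply FO.not | apply FO.or | apply FO.and | apply FO.imp | apply FO.ex | apply FO.all))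

theorem IsLeastSing.fo (a : Fin k) : FO.{u} (fun _ E v => IsLeastSing E (v a)) := by
  unfold IsLeastSing; (repeat' (first | exact IsSingUnc.fo _ | exact FO.mem _ _ | apply FO.not | apply FO.and | apply FO.imp | apply FO.all))

theorem PolFails.fo : FO.{u} (fun _ E (_ : Fin k → _) => PolFails E) := by
  unfold PolFails; (repeat' (first | exact IsLeastSing.fo _ | exact IsSC.fo _ _ | exact Arrow.fo _ _ | apply FO.not | apply FO.and | apply FO.ex))

end fo

end PPR
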