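import Pool.Agent.W_61ad90_h32.GCHX
import Pool.Agent.W_61ad90_h32.RelX
import Pool.Agent.W_MP_f61043_lc.Core2
import Pool.Agent.W_MP_f61043_h40.Stmt

/-!
# MP_f61043_lc : the cardinals of the model

In the quotients of the Boolean-valued sets over an algebra with the properties `CoreF` the name `chkT K` is a
singular cardinal of uncountable cofinality and `chkT L` is its successor.
-/

set_option autoImplicit false

universe u

open Cardinal Set HESR IM.BSet SQR
open IM (BSet)

namespace BVM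

section
variable {D : Type u} [CompleteBooleanAlgebra D]

/-- a witness is forced by a value of the ultrafilter -/
theorem exists_forced {P : ∀ (lam : D → Prop) (hl : IsUF lam), X hl → Prop} (h : TD1 P)
    {lam : D → Prop} {hl : IsUF lam} {z : X hl} (hz : P lam hl z) :
    ∃ (F : BSet D) (c : D), lam c ∧ c ≠ ⊥ ∧
      ∀ (lam' : D → Prop) (hl' : IsUF lam'), lam' c → P lam' hl' (val hl' F) := by
  obtain ⟨F, hF⟩ := TD.exists_name h
  have h1 : lam (TD.b1 h F) := (TD.b1_iff h).1 (hF lam hl z hz)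
  exact ⟨F, TD.b1 h F, h1, fun h0 => hl.bot (h0 ▸ h1), fun lam' hl' hc => (TD.b1_iff h).2 hc⟩

/-- the value of `(x, y) ∈ F` -/
noncomputable def apw (F x y : BSet D) : D :=
  TD.b0 (P := fun _ hl => App (E hl) (val hl F) (val hl x) (val hl y))
    (TD.app (Tm.const _) (Tm.const _) (Tm.const _))

theorem apw_iff {F x y : BSet D} {lam : D → Prop} {hl : IsUF lam} :
    App (E hl) (val hl F) (val hl x) (val hl y) ↔ lam (apw F x y) :=
  TD.b0_iff (P := fun _ hl => App (E hl) (val hl F) (val hl x) (val hl y))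
    (TD.app (Tm.const _) (Tm.const _) (Tm.const _))

theorem tdA {F y : BSet D} : TD1 (D := D) fun _ hl x => App (E hl) (val hl F) x (val hl y) :=
  TD.app (Tm.const _) (Tm.var 0) (Tm.const _)

theorem tdB {F x : BSet D} : TD1 (D := D) fun _ hl y => App (E hl) (val hl F) (val hl x) y :=
  TD.app (Tm.const _) (Tm.const _) (Tm.var 0)

theorem b1_tdA (F x y : BSet D) : TD.b1 (tdA (F := F) (y := y)) x = apw F x y :=
  eq_iff_ultra.2 fun lam hl => by
    rw [← TD.b1_iff (tdA (F := F) (y := y)) (hl := hl), apw_iff]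

theorem b1_tdB (F x y : BSet D) : TD.b1 (tdB (F := F) (x := x)) y = apw F x y :=
  eq_iff_ultra.2 fun lam hl => by
    rw [← TD.b1_iff (tdB (F := F) (x := x)) (hl := hl), apw_iff]

theorem exA_chk {W : Type u} [LinearOrder W] [WellFoundedLT W] {F y : BSet D} {w : W}
    {lam : D → Prop} {hl : IsUF lam} :
    (∃ x, E hl x (val hl (chk w)) ∧ App (E hl) (val hl F) x (val hl y)) ↔
      lam (⨆ v : Iio w, apw F (chk v.1) y) := by
  rw [exists_chk_iff (tdA (F := F) (y := y))]
  simp only [b1_tdA]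

theorem exA_chkT {W : Type u} [LinearOrder W] [WellFoundedLT W] {F y : BSet D}
    {lam : D → Prop} {hl : IsUF lam} :
    (∃ x, E hl x (val hl (chkT W)) ∧ App (E hl) (val hl F) x (val hl y)) ↔
      lam (⨆ v : W, apw F (chk v) y) := by
  rw [exists_chkT_iff (tdA (F := F) (y := y))]
  simp only [b1_tdA]

theorem exB_chkT {W : Type u} [LinearOrder W] [WellFoundedLT W] {F x : BSet D}
    {lam : D → Prop} {hl : IsUF lam} :
    (∃ y, E hl y (val hl (chkT W)) ∧ App (E hl) (val hl F) (val hl x) y) ↔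
      lam (⨆ v : W, apw F x (chk v)) := by
  rw [exists_chkT_iff (tdB (F := F) (x := x))]
  simp only [b1_tdB]

/-- the values of a function are pairwise incompatible -/
theorem apw_sv {F d : BSet D} {c : D} (h : ∀ (lam : D → Prop) (hl : IsUF lam), lam c →
    IsFun (E hl) (val hl F) (val hl d)) {W : Type u} [LinearOrder W] [WellFoundedLT W] {x : BSet D}
    {v w : W} (hvw : v ≠ w) : (c ⊓ apw F x (chk v)) ⊓ (c ⊓ apw F x (chk w)) = ⊥ := by
  rw [eq_bot_iff_ultra]
  intro lam hl hlam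
  obtain ⟨h1, h2⟩ := hl.inf_iff.1 hlam
  obtain ⟨h3, h4⟩ := hl.inf_iff.1 h1
  obtain ⟨_, h5⟩ := hl.inf_iff.1 h2
  exact hvw (val_chk_inj.1 ((h lam hl h3).val (zfc hl) (apw_iff.2 h4) (apw_iff.2 h5)))

end

end BVM

namespace F61M

open BVM F61

section
variable {K L D : Type u} [LinearOrder K] [LinearOrder L] [WellFoundedLT K] [WellFoundedLT L]
  [CompleteBooleanAlgebra D]

omit [WellFoundedLT L] in
/-- `K` is not covered by its elements -/
theorem not_cov_i (h : CoreF K L D) (i : K) {lam : D → Prop} (hl : IsUF lam) :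
    ¬ Cov (E hl) (val hl (chk i : BSet D)) (val hl (chkT K)) := by
  intro hc
  have hT : TD1 (D := D) fun lam hl f => IsFun (E hl) f (val hl (chk i)) ∧
      ∀ y, E hl y (val hl (chkT K)) → ∃ x, App (E hl) f x y := by
    refine TD.and (TD.isFun (Tm.var 0) (Tm.const _)) ?_
    refine TD.all (P := fun lam hl y v => E hl y (val hl (chkT K)) → ∃ x, App (E hl) (v 0) x y) ?_
    refine TD.imp (TD.mem (Tm.var 0) (Tm.const _)) ?_
    exact TD.ex (P := fun lam hl x v => App (E hl) (v 1) x (v 0))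
      (TD.app (Tm.var 2) (Tm.var 0) (Tm.var 1))
  obtain ⟨f, hf⟩ := hc
  obtain ⟨F, c, hlc, hc0, hF⟩ := exists_forced hT hf
  obtain ⟨b, y, hb0, hbc, hb⟩ := h.cardK i (fun a x => c ⊓ apw F (chk a) (chk x))
    (fun a x y hxy => apw_sv (fun lam hl hlam => (hF lam hl hlam).1) hxy) c hc0
  apply hb0
  rw [eq_bot_iff_ultra]
  intro lam hl hlam
  have h1 := hF lam hl (hl.mono hbc hlam)
  obtain ⟨x, hx⟩ := h1.2 _ (E_chkT y)
  have h2 := exA_chk.1 ⟨x, h1.1.dom (zfc hl) hx, hx⟩
  refine hl.bot (hl.mono ?_ (hl.inf hlam h2))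
  rw [inf_iSup_eq]
  refine iSup_le fun v => ?_
  have h3 := hb v.1 v.2
  rw [← inf_assoc, inf_eq_left.2 hbc] at h3
  exact h3.le

omit [WellFoundedLT L] in
/-- `K` is a cardinal -/
theorem isCard_K (h : CoreF K L D) {lam : D → Prop} (hl : IsUF lam) :
    IsCard (E hl) (val hl (chkT K : BSet D)) := by
  refine ⟨isOrd_chkT, fun β f hβ hf hon => ?_⟩
  have key : ∀ β, E hl β (val hl (chkT K : BSet D)) → ¬ Cov (E hl) β (val hl (chkT K)) := by
    refine forall_chkT (P := fun lam hl β => ¬ Cov (E hl) β (val hl (chkT K)))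
      (TD.not (TD.cov1 (Tm.var 0) (Tm.const _))) (a := ⊤) ?_ hl.top
    intro i lam hl _
    exact not_cov_i h i hl
  exact key β hβ ⟨f, hf, hon⟩

omit [WellFoundedLT K] [WellFoundedLT L] in
/-- a strictly increasing sequence and a bound -/
theorem exists_seq (h : CoreF K L D) : ∃ (f : ℕ → K) (x : K), (∀ n, f n < f (n + 1)) ∧ ∀ n, f n < x := by
  have h1 : ∀ x : K, ∃ y, x < y := fun x => by
    obtain ⟨y, hy⟩ := h.cof fun _ => x
    exact ⟨y, hy 0⟩
  choose s hs using h1
  have := h.infK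
  obtain ⟨x0⟩ : Nonempty K := inferInstance
  obtain ⟨x, hx⟩ := h.cof fun n => s^[n] x0
  exact ⟨fun n => s^[n] x0, x, fun n => by
    change s^[n] x0 < s^[n + 1] x0
    rw [Function.iterate_succ_apply']
    exact hs _, hx⟩

theorem natB_mem {f : ℕ → K} (hf : ∀ n, f n < f (n + 1)) {lam : D → Prop} (hl : IsUF lam) (n : ℕ) :
    E hl (val hl (natB n : BSet D)) (val hl (chk (f (n + 1)))) := by
  have key : ∀ n, Sub (E hl) (val hl (natB n : BSet D)) (val hl (chk (f n))) → 
      E hl (val hl (natB n : BSet D)) (val hl (chk (f (n + 1)))) := by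
    intro n hs
    rcases ((isNat_natB n).1.sub_iff (zfc hl) (isOrd_chk _)).1 hs with h1 | h1
    · exact (isOrd_chk _).trans (E_chk_of (hf n)) h1
    · rw [h1]
      exact E_chk_of (hf n)
  induction n with
  | zero => exact key 0 fun z hz => (isEmp_natB z hz).elim
  | succ n ih =>
    refine key (n + 1) fun z hz => ?_
    rcases (isSucc_natB n z).1 hz with h1 | h1
    · exact (isOrd_chk _).trans ih h1
    · rw [h1]
      exact ih

omit [WellFoundedLT L] in
/-- `ω` is an element of `K` -/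
theorem omega_mem_K (h : CoreF K L D) {lam : D → Prop} (hl : IsUF lam) :
    E hl (val hl (omB : BSet D)) (val hl (chkT K)) := by
  obtain ⟨f, x, hf, hx⟩ := exists_seq h
  have h1 : Sub (E hl) (val hl (omB : BSet D)) (val hl (chk x)) := by
    refine forall_omB (P := fun lam hl z => E hl z (val hl (chk x)))
      (TD.mem (Tm.var 0) (Tm.const _)) (a := ⊤) ?_ hl.top
    intro n lam hl _
    exact (isOrd_chk _).trans (E_chk_of (hx _)) (natB_mem hf hl n)
  rcases (isOmega_omB.1.sub_iff (zfc hl) (isOrd_chk _)).1 h1 with h2 | h2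
  · exact isOrd_chkT.trans (E_chkT x) h2
  · rw [h2]
    exact E_chkT x

omit [WellFoundedLT L] in
/-- `K` is singular -/
theorem sing_K (h : CoreF K L D) {lam : D → Prop} (hl : IsUF lam) :
    ∃ i f, E hl i (val hl (chkT K : BSet D)) ∧ Maps (E hl) f i (val hl (chkT K : BSet D)) ∧
      ∀ x, E hl x (val hl (chkT K)) → ∃ a y, App (E hl) f a y ∧ ¬ E hl y x := by
  obtain ⟨i, e, he⟩ := h.sing
  let F : BSet D := fnB (fun a : Iio i => chk a.1) (fun a : Iio i => chk (e a.1))
  have hfun : ∀ {lam : D → Prop} (hl : IsUF lam), IsFun (E hl) (val hl F) (val hl (chk i)) := by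
    intro lam hl
    rw [chk_eq i]
    refine isFun_fnB fun a b => ?_
    by_cases h : a = b
    · subst h
      rw [beq_refl (chk (e a.1))]
      exact le_top
    · rw [beq_chk_ne fun h' => h (Subtype.ext h')]
      exact bot_le
  refine ⟨_, val hl F, E_chkT i, ⟨hfun hl, ?_⟩, ?_⟩
  · intro x y hxy
    exact forall_app_relB (P := fun lam hl x y => E hl y (val hl (chkT K)))
      (TD.mem (Tm.var 1) (Tm.const _)) (a := ⊤) (fun i lam hl _ _ => E_chkT _) hl.top x y hxy
  · refine forall_chkT (P := fun lam hl x => ∃ a y, App (E hl) (val hl F) a y ∧ ¬ E hl y x) ?_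
      (a := ⊤) ?_ hl.top
    · refine TD.ex (P := fun lam hl a v => ∃ y, App (E hl) (val hl F) a y ∧ ¬ E hl y (v 0)) ?_
      exact TD.ex (P := fun lam hl y v => App (E hl) (val hl F) (v 0) y ∧ ¬ E hl y (v 1))
        (TD.and (TD.app (Tm.const _) (Tm.var 1) (Tm.var 0)) (TD.not (TD.mem (Tm.var 0) (Tm.var 2))))
    · intro x lam hl _
      obtain ⟨y, hy, hxy⟩ := he x
      refine ⟨_, _, app_fnB_of (f := fun a : Iio i => (chk a.1 : BSet D))
        (g := fun a : Iio i => chk (e a.1)) ⟨y, hy⟩, fun hE => ?_⟩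
      exact absurd (E_chk.1 hE) (not_lt.2 hxy)

omit [WellFoundedLT L] in
/-- the cofinality of `K` is uncountable -/
theorem unc_K (h : CoreF K L D) {lam : D → Prop} (hl : IsUF lam) {f : X hl}
    (hf : Maps (E hl) f (val hl omB) (val hl (chkT K))) :
    ∃ x, E hl x (val hl (chkT K)) ∧ ∀ n y, App (E hl) f n y → E hl y x := by
  by_contra hcon
  have hT : TD1 (D := D) fun lam hl f => Maps (E hl) f (val hl omB) (val hl (chkT K)) ∧
      ¬ ∃ x, E hl x (val hl (chkT K)) ∧ ∀ n y, App (E hl) f n y → E hl y x := by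
    refine TD.and (TD.maps (Tm.var 0) (Tm.const _) (Tm.const _)) (TD.not ?_)
    refine TD.ex (P := fun lam hl x v => E hl x (val hl (chkT K)) ∧
      ∀ n y, App (E hl) (v 0) n y → E hl y x) ?_
    refine TD.and (TD.mem (Tm.var 0) (Tm.const _)) ?_
    refine TD.all (P := fun lam hl n v => ∀ y, App (E hl) (v 1) n y → E hl y (v 0)) ?_
    exact TD.all (P := fun lam hl y v => App (E hl) (v 2) (v 0) y → E hl y (v 1))
      (TD.imp (TD.app (Tm.var 3) (Tm.var 1) (Tm.var 0)) (TD.mem (Tm.var 0) (Tm.var 2)))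
  obtain ⟨F, c, hlc, hc0, hF⟩ := exists_forced hT ⟨hf, hcon⟩
  have := h.infK
  obtain ⟨b, g, hb0, hbc, hb⟩ := h.dist K (fun n x => apw F (natB n) (chk x) ⊔ cᶜ) (by
      intro n
      rw [← iSup_sup, eq_top_iff, ← sup_compl_eq_top (x := c)]
      refine sup_le_sup_right ?_ _
      rw [le_iff_ultra]
      intro lam hl hlam
      obtain ⟨y, hy⟩ := (hF lam hl hlam).1.1.ex (E_omB n)
      exact exB_chkT.1 ⟨y, (hF lam hl hlam).1.2 _ _ hy, hy⟩) c hc0
  obtain ⟨x, hx⟩ := h.cof g
  obtain ⟨lam, hl, hlam⟩ := exists_isUF hb0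
  obtain ⟨h1, h2⟩ := hF lam hl (hl.mono hbc hlam)
  refine h2 ⟨_, E_chkT x, fun n y hny => ?_⟩
  have key : ∀ n, E hl n (val hl omB) → ∀ y, App (E hl) (val hl F) n y → E hl y (val hl (chk x)) := by
    refine forall_omB (P := fun lam hl n => ∀ y, App (E hl) (val hl F) n y → E hl y (val hl (chk x)))
      ?_ (a := b) ?_ hlam
    · exact TD.all (P := fun lam hl y v => App (E hl) (val hl F) (v 0) y → E hl y (val hl (chk x)))
        (TD.imp (TD.app (Tm.const _) (Tm.var 1) (Tm.var 0)) (TD.mem (Tm.var 0) (Tm.const _)))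
    · intro n lam hl hlam y hy
      have h3 : App (E hl) (val hl F) (val hl (natB n)) (val hl (chk (g n))) := by
        rcases hl.sup_iff.1 (hl.mono (hb n) hlam) with h4 | h4
        · exact apw_iff.2 h4
        · exact (hl.compl_iff.1 h4 (hl.mono hbc hlam)).elim
      rw [(hF lam hl (hl.mono hbc hlam)).1.1.val (zfc hl) hy h3]
      exact E_chk_of (hx n)
  exact key n (h1.1.dom (zfc hl) hny) y hny

omit [WellFoundedLT L] in
/-- `K` is a singular cardinal of uncountable cofinality -/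
theorem isSingUnc_K (h : CoreF K L D) {lam : D → Prop} (hl : IsUF lam) :
    PPR.IsSingUnc (E hl) (val hl (chkT K : BSet D)) := by
  refine ⟨isCard_K h hl, ⟨_, isOmega_omB, omega_mem_K h hl⟩, sing_K h hl, fun w f hw hf => ?_⟩
  rw [eq_omB hw] at hf
  exact unc_K h hl hf

/-- `L` is not covered by `K` -/
theorem not_cov_L (h : CoreF K L D) {lam : D → Prop} (hl : IsUF lam) :
    ¬ Cov (E hl) (val hl (chkT K : BSet D)) (val hl (chkT L)) := by
  intro hc
  have hT : TD1 (D := D) fun lam hl f => IsFun (E hl) f (val hl (chkT K)) ∧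
      ∀ y, E hl y (val hl (chkT L)) → ∃ x, App (E hl) f x y := by
    refine TD.and (TD.isFun (Tm.var 0) (Tm.const _)) ?_
    refine TD.all (P := fun lam hl y v => E hl y (val hl (chkT L)) → ∃ x, App (E hl) (v 0) x y) ?_
    refine TD.imp (TD.mem (Tm.var 0) (Tm.const _)) ?_
    exact TD.ex (P := fun lam hl x v => App (E hl) (v 1) x (v 0))
      (TD.app (Tm.var 2) (Tm.var 0) (Tm.var 1))
  obtain ⟨f, hf⟩ := hc
  obtain ⟨F, c, hlc, hc0, hF⟩ := exists_forced hT hf
  obtain ⟨b, δ, hb0, hbc, hb⟩ := h.cardL (fun a x => c ⊓ apw F (chk a) (chk x))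
    (fun a x y hxy => apw_sv (fun lam hl hlam => (hF lam hl hlam).1) hxy) c hc0
  apply hb0
  rw [eq_bot_iff_ultra]
  intro lam hl hlam
  have h1 := hF lam hl (hl.mono hbc hlam)
  obtain ⟨x, hx⟩ := h1.2 _ (E_chkT δ)
  have h2 := exA_chkT.1 ⟨x, h1.1.dom (zfc hl) hx, hx⟩
  refine hl.bot (hl.mono ?_ (hl.inf hlam h2))
  rw [inf_iSup_eq]
  refine iSup_le fun v => ?_
  have h3 := hb v δ le_rfl
  rw [← inf_assoc, inf_eq_left.2 hbc] at h3
  exact h3.le

/-- `L` is the successor cardinal of `K` -/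
theorem isSC_L (h : CoreF K L D) {lam : D → Prop} (hl : IsUF lam) :
    IsSC (E hl) (val hl (chkT K : BSet D)) (val hl (chkT L)) := by
  refine IsSC.ofHart (zfc hl) isOrd_chkT (IsHart.ofMid (zfc hl) isOrd_chkT ?_ (not_cov_L h hl))
  refine Pool.Agent.W_61ad90.cov_of_coll (fun x => ?_) hl
  classical
  obtain ⟨e, he⟩ := h.segL x
  refine ⟨fun a y => if e a = y then ⊤ else ⊥, ?_, ?_⟩
  · intro a y z hyz
    change (if e a = y then (⊤ : D) else ⊥) ⊓ (if e a = z then (⊤ : D) else ⊥) = ⊥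
    by_cases h1 : e a = y
    · rw [if_neg (fun h2 : e a = z => hyz (h1.symm.trans h2)), inf_bot_eq]
    · rw [if_neg h1, bot_inf_eq]
  · intro y hy
    obtain ⟨a, ha⟩ := he y hy
    rw [eq_top_iff]
    refine le_iSup_of_le a ?_
    change ⊤ ≤ (if e a = y then (⊤ : D) else ⊥)
    rw [if_pos ha]

end

end F61M
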