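import Pool.Agent.W_MP_f61043_h40.CardF

/-!
# MP_f61043_lc : the polarized relation fails in the model
-/

set_option autoImplicit false

universe u

open Cardinal Set HESR IM.BSet SQR
open IM (BSet)

namespace F61M

open BVM F61

section
variable {K L D : Type u} [LinearOrder K] [LinearOrder L] [WellFoundedLT K] [WellFoundedLT L]
  [CompleteBooleanAlgebra D]

/-- the name of the partition -/
noncomputable def colB (col : L → K → D) : BSet D :=
  relB (ι := K × L) (fun p => chk p.1) (fun p => chk p.2) fun p => col p.2 p.1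

theorem app_colB {col : L → K → D} {y : K} {x : L} {lam : D → Prop} {hl : IsUF lam} :
    App (E hl) (val hl (colB col)) (val hl (chk y)) (val hl (chk x)) ↔ lam (col x y) := by
  constructor
  · intro h
    have key : ∀ a b, App (E hl) (val hl (colB col)) a b → a = val hl (chk y) →
        b = val hl (chk x) → lam (col x y) := by
      refine forall_app_relB (P := fun lam hl a b => a = val hl (chk y) → b = val hl (chk x) →
        lam (col x y)) ?_ (a := ⊤) ?_ hl.top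
      · exact TD.imp (TD.eq (Tm.var 0) (Tm.const _)) (TD.imp (TD.eq (Tm.var 1) (Tm.const _))
          (TD.lamC _))
      · rintro ⟨y', x'⟩ lam hl _ h1 h2 h3
        have h4 := val_chk_inj.1 h2
        have h5 := val_chk_inj.1 h3
        subst h4 h5
        exact h1
    exact key _ _ h rfl rfl
  · intro h
    exact app_relB_of (f := fun p : K × L => (chk p.1 : BSet D)) (g := fun p => chk p.2) (y, x) h

/-- the pair is in the relation, or not in the relation -/
def Pr {T : Type*} (E : T → T → Prop) (s : Bool) (C a b : T) : Prop :=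
  match s with
  | true => App E C a b
  | false => ¬ App E C a b

theorem Pr.td {k : ℕ} (s : Bool) {f g l : ∀ (lam : D → Prop) (hl : IsUF lam), (Fin k → X hl) → X hl}
    (hf : Tm f) (hg : Tm g) (hl' : Tm l) :
    TD fun lam hl v => Pr (E hl) s (f lam hl v) (g lam hl v) (l lam hl v) := by
  cases s
  · exact TD.not (TD.app hf hg hl')
  · exact TD.app hf hg hl'

/-- a homogeneous rectangle with enumerations -/
def Hmg {T : Type*} (E : T → T → Prop) (s : Bool) (C k l f g A B : T) : Prop :=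
  (Sub E A k ∧ IsBij E g k A) ∧ (Sub E B l ∧ IsBij E f k B) ∧ ∀ a b, E a A → E b B → Pr E s C a b

theorem Hmg.td {m : ℕ} (s : Bool) {C k l f g A B : ∀ (lam : D → Prop) (hl : IsUF lam),
    (Fin m → X hl) → X hl} (hC : Tm C) (hk : Tm k) (hL : Tm l) (hf : Tm f) (hg : Tm g) (hA : Tm A)
    (hB : Tm B) (hC' : Tm (k := m + 2) fun lam hl v => C lam hl fun i => v i.succ.succ)
    (hA' : Tm (k := m + 2) fun lam hl v => A lam hl fun i => v i.succ.succ)
    (hB' : Tm (k := m + 2) fun lam hl v => B lam hl fun i => v i.succ.succ) :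
    TD fun lam hl v => Hmg (E hl) s (C lam hl v) (k lam hl v) (l lam hl v) (f lam hl v)
      (g lam hl v) (A lam hl v) (B lam hl v) := by
  refine TD.and (TD.and (TD.sub hA hk) (TD.isBij hg hk hA)) (TD.and (TD.and (TD.sub hB hL)
    (TD.isBij hf hk hB)) ?_)
  refine TD.all (P := fun lam hl a v => ∀ b, E hl a (A lam hl v) → E hl b (B lam hl v) →
    Pr (E hl) s (C lam hl v) a b) ?_
  refine TD.all (P := fun lam hl b (v : Fin (m + 1) → X hl) => E hl (v 0) (A lam hl fun i => v i.succ) →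
    E hl b (B lam hl fun i => v i.succ) → Pr (E hl) s (C lam hl fun i => v i.succ) (v 0) b) ?_
  exact TD.imp (TD.mem (Tm.var 1) hA') (TD.imp (TD.mem (Tm.var 0) hB') (Pr.td s hC' (Tm.var 1) (Tm.var 0)))

theorem no_hom (h : CoreF K L D) : ∃ col : L → K → D, ∀ (s : Bool) {lam : D → Prop} (hl : IsUF lam)
    (f g A B : X hl), ¬ Hmg (E hl) s (val hl (colB col)) (val hl (chkT K)) (val hl (chkT L)) f g A B := by
  obtain ⟨col, hcol⟩ := h.rel
  refine ⟨col, fun s lam hl f g A B hh => ?_⟩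
  have hT1 : TD1 (D := D) fun lam hl f => ∃ g A B, Hmg (E hl) s (val hl (colB col)) (val hl (chkT K))
      (val hl (chkT L)) f g A B := by
    refine TD.ex (P := fun lam hl g v => ∃ A B, Hmg (E hl) s (val hl (colB col)) (val hl (chkT K))
      (val hl (chkT L)) (v 0) g A B) ?_
    refine TD.ex (P := fun lam hl A v => ∃ B, Hmg (E hl) s (val hl (colB col)) (val hl (chkT K))
      (val hl (chkT L)) (v 1) (v 0) A B) ?_
    refine TD.ex (P := fun lam hl B v => Hmg (E hl) s (val hl (colB col)) (val hl (chkT K))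
      (val hl (chkT L)) (v 2) (v 1) (v 0) B) ?_
    exact Hmg.td s (Tm.const _) (Tm.const _) (Tm.const _) (Tm.var 3) (Tm.var 2) (Tm.var 1) (Tm.var 0)
      (Tm.const _) (Tm.var 3) (Tm.var 2)
  obtain ⟨F, c1, hlc1, _, hF⟩ := exists_forced hT1 ⟨g, A, B, hh⟩
  have hT2 : TD1 (D := D) fun lam hl g => ∃ A B, Hmg (E hl) s (val hl (colB col)) (val hl (chkT K))
      (val hl (chkT L)) (val hl F) g A B := by
    refine TD.ex (P := fun lam hl A v => ∃ B, Hmg (E hl) s (val hl (colB col)) (val hl (chkT K))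
      (val hl (chkT L)) (val hl F) (v 0) A B) ?_
    refine TD.ex (P := fun lam hl B v => Hmg (E hl) s (val hl (colB col)) (val hl (chkT K))
      (val hl (chkT L)) (val hl F) (v 1) (v 0) B) ?_
    exact Hmg.td s (Tm.const _) (Tm.const _) (Tm.const _) (Tm.const _) (Tm.var 2) (Tm.var 1) (Tm.var 0)
      (Tm.const _) (Tm.var 3) (Tm.var 2)
  obtain ⟨g', A', B', hh'⟩ := hF lam hl hlc1
  obtain ⟨G, c, _, hc0, hG⟩ := exists_forced hT2 ⟨A', B', hh'⟩
  have hFn : InjN c (fun (a : K) (x : L) => apw F (chk a) (chk x)) := by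
    refine ⟨fun a => ?_, fun a x y hxy => ?_, fun a b x hab => ?_⟩
    · rw [le_iff_ultra]
      intro lam hl hlam
      obtain ⟨A, B, _, ⟨h1, h2⟩, _⟩ := hG lam hl hlam
      obtain ⟨y, hy⟩ := h2.1.1.ex (E_chkT a)
      exact exB_chkT.1 ⟨y, h1 _ (h2.1.2 _ _ hy), hy⟩
    · rw [eq_bot_iff_ultra]
      intro lam hl hlam
      obtain ⟨h3, h4⟩ := hl.inf_iff.1 hlam
      obtain ⟨h5, h6⟩ := hl.inf_iff.1 h3
      obtain ⟨A, B, _, ⟨h1, h2⟩, _⟩ := hG lam hl h4
      exact hxy (val_chk_inj.1 (h2.1.1.val (zfc hl) (apw_iff.2 h5) (apw_iff.2 h6)))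
    · rw [eq_bot_iff_ultra]
      intro lam hl hlam
      obtain ⟨h3, h4⟩ := hl.inf_iff.1 hlam
      obtain ⟨h5, h6⟩ := hl.inf_iff.1 h3
      obtain ⟨A, B, _, ⟨h1, h2⟩, _⟩ := hG lam hl h4
      exact hab (val_chk_inj.1 (h2.2.1 _ _ _ (apw_iff.2 h5) (apw_iff.2 h6)))
  have hGn : InjN c (fun (a : K) (x : K) => apw G (chk a) (chk x)) := by
    refine ⟨fun a => ?_, fun a x y hxy => ?_, fun a b x hab => ?_⟩
    · rw [le_iff_ultra]
      intro lam hl hlam
      obtain ⟨A, B, ⟨h1, h2⟩, _⟩ := hG lam hl hlam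
      obtain ⟨y, hy⟩ := h2.1.1.ex (E_chkT a)
      exact exB_chkT.1 ⟨y, h1 _ (h2.1.2 _ _ hy), hy⟩
    · rw [eq_bot_iff_ultra]
      intro lam hl hlam
      obtain ⟨h3, h4⟩ := hl.inf_iff.1 hlam
      obtain ⟨h5, h6⟩ := hl.inf_iff.1 h3
      obtain ⟨A, B, ⟨h1, h2⟩, _⟩ := hG lam hl h4
      exact hxy (val_chk_inj.1 (h2.1.1.val (zfc hl) (apw_iff.2 h5) (apw_iff.2 h6)))
    · rw [eq_bot_iff_ultra]
      intro lam hl hlam
      obtain ⟨h3, h4⟩ := hl.inf_iff.1 hlam
      obtain ⟨h5, h6⟩ := hl.inf_iff.1 h3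
      obtain ⟨A, B, ⟨h1, h2⟩, _⟩ := hG lam hl h4
      exact hab (val_chk_inj.1 (h2.2.1 _ _ _ (apw_iff.2 h5) (apw_iff.2 h6)))
  obtain ⟨⟨b, a, x, a', y, hb0, hbc, h1, h2, h3⟩, ⟨d, e, z, e', t, hd0, hdc, h4, h5, h6⟩⟩ :=
    hcol _ _ c hc0 hFn hGn
  cases s with
  | false =>
    obtain ⟨lam, hl, hlam⟩ := exists_isUF hb0
    obtain ⟨A, B, ⟨_, h7⟩, ⟨_, h8⟩, h9⟩ := hG lam hl (hl.mono hbc hlam)
    exact h9 _ _ (h7.1.2 _ _ (apw_iff.2 (hl.mono h2 hlam))) (h8.1.2 _ _ (apw_iff.2 (hl.mono h1 hlam)))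
      (app_colB.2 (hl.mono h3 hlam))
  | true =>
    obtain ⟨lam, hl, hlam⟩ := exists_isUF hd0
    obtain ⟨A, B, ⟨_, h7⟩, ⟨_, h8⟩, h9⟩ := hG lam hl (hl.mono hdc hlam)
    have h10 := h9 _ _ (h7.1.2 _ _ (apw_iff.2 (hl.mono h5 hlam)))
      (h8.1.2 _ _ (apw_iff.2 (hl.mono h4 hlam)))
    exact hl.compl_iff.1 (hl.mono h6 hlam) (app_colB.1 h10)

/-- the polarized relation fails -/
theorem not_arrow (h : CoreF K L D) {lam : D → Prop} (hl : IsUF lam) :
    ¬ PPR.Arrow (E hl) (val hl (chkT K : BSet D)) (val hl (chkT L)) := by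
  obtain ⟨col, hcol⟩ := no_hom h
  intro ha
  obtain ⟨A, B, h1, ⟨g, h2⟩, h3, ⟨f, h4⟩, h5⟩ := ha (val hl (colB col))
  rcases h5 with h5 | h5
  · exact hcol true hl f g A B ⟨⟨h1, h2⟩, ⟨h3, h4⟩, h5⟩
  · exact hcol false hl f g A B ⟨⟨h1, h2⟩, ⟨h3, h4⟩, h5⟩

end

end F61M
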